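import Pool.Agent.H46.EXC.Stmts

/-!
# EXC, row DCM: decomposition of an integer along a grid of exponents
-/

set_option autoImplicit false

namespace Pool.EXC

open Finset Pool.Agent.H98.ABCR Pool.SHA Pool.ABY Pool.VIO

namespace DCM97

theorem fac (S : Finset ℕ) (hS : ∀ p ∈ S, p.Prime) (e : ℕ → ℕ) (q : ℕ) :
    (∏ p ∈ S, p ^ e p).factorization q = if q ∈ S then e q else 0 := by
  rw [Nat.factorization_prod_apply (fun p hp => (pow_pos (hS p hp).pos _).ne')]
  have h1 : ∀ p ∈ S, (p ^ e p).factorization q = if p = q then e q else 0 := by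
    intro p hp
    rw [(hS p hp).factorization_pow, Finsupp.single_apply]
    split_ifs with h
    · rw [h]
    · rfl
  rw [Finset.sum_congr rfl h1, Finset.sum_ite_eq' S q (fun _ => e q)]

theorem pf (S : Finset ℕ) (hS : ∀ p ∈ S, p.Prime) (e : ℕ → ℕ) (he : ∀ p ∈ S, 1 ≤ e p) :
    (∏ p ∈ S, p ^ e p).primeFactors = S := by
  ext q
  rw [← Nat.support_factorization, Finsupp.mem_support_iff, fac S hS e q]
  constructor
  · intro h
    by_contra hq
    exact h (if_neg hq)
  · intro h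
    rw [if_pos h]
    have := he q h
    omega

theorem pos (S : Finset ℕ) (hS : ∀ p ∈ S, p.Prime) (e : ℕ → ℕ) : 0 < ∏ p ∈ S, p ^ e p :=
  Finset.prod_pos fun p hp => pow_pos (hS p hp).pos _

end DCM97

open DCM97

theorem dcm_thm : S_DCM := by
  intro Λ ζ C0 hΛ hΛC hζ hζ1
  classical
  have hC0 : 0 < C0 := hΛ.trans_le hΛC
  -- the number of intervals
  have hex : ∃ n : ℕ, C0 < Λ * (1 + ζ) ^ n := by
    obtain ⟨n, hn⟩ := pow_unbounded_of_one_lt (C0 / Λ) (show (1 : ℝ) < 1 + ζ by linarith)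
    exact ⟨n, by rwa [div_lt_iff₀ hΛ, mul_comm] at hn⟩
  set n : ℕ := Nat.find hex with hn
  have hn1 : C0 < Λ * (1 + ζ) ^ n := Nat.find_spec hex
  have hn2 : ∀ k < n, Λ * (1 + ζ) ^ k ≤ C0 := fun k hk => not_lt.mp (Nat.find_min hex hk)
  have hn0 : 1 ≤ n := by
    rcases Nat.eq_zero_or_pos n with h | h
    · rw [h, pow_zero, mul_one] at hn1
      linarith
    · exact h
  refine ⟨n, hn0, hn2, fun δ hδ => ⟨⌈2 * C0 / δ⌉₊ + 1, fun g hg => ?_⟩⟩
  have hg0 : 0 < g := lt_of_lt_of_le (by positivity) hg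
  have hδg : 1 ≤ δ * g := by
    rw [div_le_iff₀ hδ] at hg
    linarith
  set A : ℕ → ℕ := fun k => ⌈Λ * (1 + ζ) ^ k * g⌉₊ with hA
  set st : ℕ := ⌈δ * g⌉₊ with hst
  have hst1 : δ * g ≤ st := Nat.le_ceil _
  have hst2 : (st : ℝ) ≤ 2 * δ * g := by
    have := (Nat.ceil_lt_add_one (show (0 : ℝ) ≤ δ * g by linarith)).le
    calc (st : ℝ) ≤ δ * g + 1 := this
      _ ≤ 2 * δ * g := by linarith
  have hst0 : 0 < st := Nat.ceil_pos.mpr (by linarith)
  set L : ℕ := ⌈2 * C0 / δ⌉₊ + 1 with hL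
  set E : Fin n → Finset ℕ := fun k => ((Finset.range L).image (fun l => A k + st * l)).filter
    (fun j => (j : ℝ) ≤ (1 + ζ) * (Λ * (1 + ζ) ^ (k : ℕ)) * g) with hE
  refine ⟨E, fun k => ⟨?_, ?_⟩, ?_⟩
  · calc (E k).card ≤ ((Finset.range L).image (fun l => A k + st * l)).card :=
        Finset.card_filter_le _ _
      _ ≤ (Finset.range L).card := Finset.card_image_le
      _ = L := Finset.card_range L
  · intro j hj
    rw [hE] at hj
    simp only [Finset.mem_filter, Finset.mem_image, Finset.mem_range] at hj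
    obtain ⟨⟨l, -, hl⟩, hj2⟩ := hj
    refine ⟨?_, hj2⟩
    have h1 : Λ * (1 + ζ) ^ (k : ℕ) * g ≤ (A k : ℝ) := Nat.le_ceil _
    have h2 : (A k : ℝ) ≤ j := by
      rw [← hl]; push_cast
      have : (0 : ℝ) ≤ (st : ℝ) * l := by positivity
      linarith
    linarith
  intro m H lam hm hlam hH hex2
  -- heavy primes
  set P : Finset ℕ := m.primeFactors \ H with hP
  have hPp : ∀ p ∈ P, p.Prime := fun p hp =>
    Nat.prime_of_mem_primeFactors (Finset.mem_sdiff.mp hp).1
  set f : ℕ → ℕ := fun p => m.factorization p with hf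
  set Q : Finset ℕ := P.filter (fun p => ¬ ((f p : ℝ) ≤ lam * g)) with hQ
  have hQP : Q ⊆ P := Finset.filter_subset _ _
  have hQp : ∀ p ∈ Q, p.Prime := fun p hp => hPp p (hQP hp)
  -- the interval and the rounded exponent
  have hk : ∀ p, ∃ k : Fin n, ∃ j' : ℕ, p ∈ Q → j' ∈ E k ∧ 1 ≤ j' ∧ j' ≤ f p ∧ f p < j' + st := by
    intro p
    by_cases hp : p ∈ Q
    swap
    · exact ⟨⟨0, hn0⟩, 0, fun h => absurd h hp⟩
    have hpQ := Finset.mem_filter.mp hp
    have hpP := Finset.mem_sdiff.mp hpQ.1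
    have hj : Λ * g ≤ f p ∧ (f p : ℝ) ≤ C0 * g := by
      rcases hex2 p hpP.1 hpP.2 with h | h
      · exact absurd h hpQ.2
      · exact h
    have hex3 : ∃ k : ℕ, (f p : ℝ) < Λ * (1 + ζ) ^ (k + 1) * g := by
      refine ⟨n - 1, ?_⟩
      rw [Nat.sub_add_cancel hn0]
      exact hj.2.trans_lt (mul_lt_mul_of_pos_right hn1 hg0)
    set k := Nat.find hex3 with hkk
    have hk1 : (f p : ℝ) < Λ * (1 + ζ) ^ (k + 1) * g := Nat.find_spec hex3
    have hk2 : Λ * (1 + ζ) ^ k * g ≤ f p := by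
      rcases Nat.eq_zero_or_pos k with h | h
      · rw [h, pow_zero, mul_one]; exact hj.1
      · have := Nat.find_min hex3 (show k - 1 < k by omega)
        rw [Nat.sub_add_cancel h] at this
        exact not_lt.mp this
    have hkn : k < n := by
      have : k ≤ n - 1 := Nat.find_min' hex3 (by
        rw [Nat.sub_add_cancel hn0]
        exact hj.2.trans_lt (mul_lt_mul_of_pos_right hn1 hg0))
      omega
    have hA1 : A k ≤ f p := by
      show ⌈Λ * (1 + ζ) ^ k * g⌉₊ ≤ f p
      exact Nat.ceil_le.mpr hk2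
    have hA0 : 1 ≤ A k := by
      have : 0 < A k := Nat.ceil_pos.mpr (by positivity)
      exact this
    set l := (f p - A k) / st with hl
    have hl1 : st * l ≤ f p - A k := Nat.mul_div_le _ _
    have hl2 : f p - A k < st * l + st := by
      have := Nat.lt_mul_div_succ (f p - A k) hst0
      rw [mul_add, mul_one] at this
      exact this
    have hle : A k + st * l ≤ f p := by omega
    refine ⟨⟨k, hkn⟩, A k + st * l, fun _ => ⟨?_, by omega, hle, by omega⟩⟩
    rw [hE]
    simp only [Finset.mem_filter, Finset.mem_image, Finset.mem_range]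
    refine ⟨⟨l, ?_, rfl⟩, ?_⟩
    · -- l < L
      have h1 : (st : ℝ) * l ≤ 2 * C0 * g := by
        have h2 : ((st * l : ℕ) : ℝ) ≤ (f p : ℝ) := by exact_mod_cast (by omega : st * l ≤ f p)
        push_cast at h2
        nlinarith [hj.2, mul_pos hC0 hg0]
      have h3 : δ * g * l ≤ 2 * C0 * g :=
        (mul_le_mul_of_nonneg_right hst1 (Nat.cast_nonneg l)).trans h1
      have h4 : (l : ℝ) ≤ 2 * C0 / δ := by
        rw [le_div_iff₀ hδ]
        have : (l * δ) * g ≤ (2 * C0) * g := by nlinarith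
        exact le_of_mul_le_mul_right this hg0
      have h5 : (l : ℝ) ≤ ⌈2 * C0 / δ⌉₊ := h4.trans (Nat.le_ceil _)
      have h6 : l ≤ ⌈2 * C0 / δ⌉₊ := by exact_mod_cast h5
      omega
    · have h1 : ((A k + st * l : ℕ) : ℝ) ≤ (f p : ℝ) := by exact_mod_cast hle
      calc ((A k + st * l : ℕ) : ℝ) ≤ (f p : ℝ) := h1
        _ ≤ Λ * (1 + ζ) ^ (k + 1) * g := hk1.le
        _ = (1 + ζ) * (Λ * (1 + ζ) ^ k) * g := by ring
  choose κ e he using hk
  set S : Fin n → Finset ℕ := fun k => Q.filter (fun p => κ p = k) with hS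
  have hSQ : ∀ k, S k ⊆ Q := fun k => Finset.filter_subset _ _
  have hSp : ∀ k, ∀ p ∈ S k, p.Prime := fun k p hp => hQp p (hSQ k hp)
  have hSe : ∀ k, ∀ p ∈ S k, 1 ≤ e p := fun k p hp => (he p (hSQ k hp)).2.1
  set y : Fin n → ℕ := fun k => ∏ p ∈ S k, p ^ e p with hy
  have hypf : ∀ k, (y k).primeFactors = S k := fun k => pf (S k) (hSp k) e (hSe k)
  -- the rest
  set w : ℕ → ℕ := fun p => if p ∈ Q then f p - e p else f p with hw
  set r : ℕ := ∏ p ∈ P, p ^ w p with hr
  have hprodQ : ∏ k, y k = ∏ p ∈ Q, p ^ e p := by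
    rw [hy]
    exact Finset.prod_fiberwise Q κ (fun p => p ^ e p)
  have hwle : ∀ p ∈ P, (w p : ℝ) ≤ (lam + 2 * δ) * g := by
    intro p hp
    rw [hw]
    simp only
    split_ifs with hq
    · have h1 := (he p hq).2.2.2
      have h2 := (he p hq).2.2.1
      have h3 : ((f p - e p : ℕ) : ℝ) ≤ (st : ℝ) := by exact_mod_cast (by omega : f p - e p ≤ st)
      have h4 : 0 ≤ lam * g := by positivity
      nlinarith
    · have h1 : (f p : ℝ) ≤ lam * g := by
        by_contra hc
        exact hq (Finset.mem_filter.mpr ⟨hp, hc⟩)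
      have h4 : 0 ≤ δ * g := by positivity
      nlinarith
  refine ⟨y, r, pos P hPp w, ?_, fun k => ⟨pos (S k) (hSp k) e, ?_⟩, fun k => ?_, ?_, ?_, ?_⟩
  · have h1 : m = ∏ p ∈ m.primeFactors, p ^ f p := by
      have := Nat.prod_factorization_pow_eq_self hm.ne'
      rw [Finsupp.prod, Nat.support_factorization] at this
      exact this.symm
    have h2 : ∏ p ∈ m.primeFactors, p ^ f p = (∏ p ∈ P, p ^ f p) * ∏ p ∈ H, p ^ f p :=
      (Finset.prod_sdiff hH).symm
    have h3 : ∏ p ∈ P, p ^ f p = (∏ p ∈ Q, p ^ e p) * r := by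
      have h4 : ∏ p ∈ Q, p ^ e p = ∏ p ∈ P, (if p ∈ Q then p ^ e p else 1) := by
        rw [Finset.prod_ite_mem, Finset.inter_eq_right.mpr hQP]
      rw [h4, hr, ← Finset.prod_mul_distrib]
      refine Finset.prod_congr rfl fun p hp => ?_
      rw [hw]
      simp only
      split_ifs with hq
      · rw [← pow_add]
        congr 1
        have := (he p hq).2.2.1
        omega
      · rw [one_mul]
    rw [hprodQ]
    calc m = ∏ p ∈ m.primeFactors, p ^ f p := h1
      _ = (∏ p ∈ P, p ^ f p) * ∏ p ∈ H, p ^ f p := h2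
      _ = (∏ p ∈ Q, p ^ e p) * r * ∏ p ∈ H, p ^ f p := by rw [h3]
      _ = (∏ p ∈ H, p ^ f p) * (∏ p ∈ Q, p ^ e p) * r := by ring
  · intro p hp
    rw [hypf k] at hp
    have h1 : (y k).factorization p = e p := by
      have := fac (S k) (hSp k) e p
      rw [if_pos hp] at this
      exact this
    rw [h1]
    have h2 : κ p = k := (Finset.mem_filter.mp hp).2
    rw [← h2]
    exact (he p (hSQ k hp)).1
  · rw [hypf k]
    exact (hSQ k).trans hQP
  · have h1 : ∏ k, rad (y k) = ∏ p ∈ Q, p := by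
      unfold rad
      simp_rw [hypf]
      exact Finset.prod_fiberwise Q κ (fun p => p)
    rw [h1]
    unfold rad
    exact Finset.prod_le_prod_of_subset_of_one_le' (hQP.trans Finset.sdiff_subset)
      (fun p hp _ => (Nat.prime_of_mem_primeFactors hp).one_le)
  · have h1 : Real.log r = ∑ p ∈ P, (w p : ℝ) * Real.log p := by
      rw [hr]
      push_cast
      rw [Real.log_prod (fun p hp => by
        have := (hPp p hp).pos
        positivity)]
      exact Finset.sum_congr rfl fun p _ => Real.log_pow _ _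
    have h2 : Real.log (rad m) = ∑ p ∈ m.primeFactors, Real.log p := by
      unfold rad
      push_cast
      exact Real.log_prod (fun p hp => by
        have := (Nat.prime_of_mem_primeFactors hp).pos
        positivity)
    have h3 : ∑ p ∈ P, Real.log (p : ℝ) ≤ ∑ p ∈ m.primeFactors, Real.log (p : ℝ) :=
      Finset.sum_le_sum_of_subset_of_nonneg Finset.sdiff_subset (fun p hp _ =>
        Real.log_natCast_nonneg p)
    rw [h1, h2]
    calc ∑ p ∈ P, (w p : ℝ) * Real.log p ≤ ∑ p ∈ P, (lam + 2 * δ) * g * Real.log p :=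
          Finset.sum_le_sum fun p hp =>
            mul_le_mul_of_nonneg_right (hwle p hp) (Real.log_natCast_nonneg p)
      _ = (lam + 2 * δ) * g * ∑ p ∈ P, Real.log (p : ℝ) := by rw [Finset.mul_sum]
      _ ≤ (lam + 2 * δ) * g * ∑ p ∈ m.primeFactors, Real.log (p : ℝ) :=
          mul_le_mul_of_nonneg_left h3 (by positivity)
  · intro p hp hpH hpk
    by_contra hc
    have hpQ : p ∈ Q := Finset.mem_filter.mpr ⟨Finset.mem_sdiff.mpr ⟨hp, hpH⟩, hc⟩
    apply hpk (κ p)
    rw [hypf]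
    exact Finset.mem_filter.mpr ⟨hpQ, rfl⟩

end Pool.EXC
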